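import Pool.Agent.H28.GN.T3
import Pool.Agent.H67.LF.SYX

/-!
Theorem G, row GSX: the measure on the side of the numbers (port of the row XSX of Theorem X).
-/

set_option autoImplicit false

open MeasureTheory ProbabilityTheory Filter Topology Finset

namespace Pool.Agent.H70.GNG

open Pool.Agent.H28.GN
open Pool.Agent.H28.MCL (ldB Aw)
open Pool.Agent.H67.LF (ptX_nat ptX_zero fai_mono)
open Pool.Agent.H28.LF (lt SS ptS LX Xi shX lX shS SysX T_SHP wX)

theorem wX_pt (n : ℕ) : wX (ptS (lX fun _ _ => false) n) = wN n := by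
  funext i
  unfold wX wN
  have e1 : ((i : ℤ) + 1) = ((i + 1 : ℕ) : ℤ) := by push_cast; ring
  rw [e1, ptX_nat]
  rfl

theorem pf_GSX (hS : Pool.Agent.H28.LF.T_SHP) (hX : Pool.Agent.H83.X.T_XLI)
    (hL : Pool.Agent.H28.MCL.T_LDB) (hB : T_BDG) : T_GSX := by
  intro u c J ε U x y hu hA hbig
  have hμ := (hL U x y hA).1
  have hem : ldB U x y ∅ = 0 := by
    have h1 := hμ.add ∅ ∅ (Set.disjoint_empty _)
    rw [Set.union_empty] at h1
    linarith
  obtain ⟨P, hP, hinv, hclo, hcls⟩ := hS LX (ldB U x y) (lX fun _ _ => false) hμ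
  refine ⟨P, ⟨hP, hinv, ?_, ?_⟩, hclo, ?_⟩
  · have key : ∀ s : ℕ, P {ξ : Xi | (ξ 0).2 s ≠ (ξ 1).2 s} = 0 := by
      intro s
      have hc : IsClopen {ξ : Xi | (ξ 0).2 s ≠ (ξ 1).2 s} := by
        have h0 : Continuous fun ξ : Xi => ((ξ 0).2 s, (ξ 1).2 s) := by fun_prop
        have h1 : IsClopen {z : Bool × Bool | z.1 ≠ z.2} := isClopen_discrete _
        exact h1.preimage h0
      have h2 := hclo _ hc
      have h3 : {n | ptS (lX fun _ _ => false) n ∈ {ξ : Xi | (ξ 0).2 s ≠ (ξ 1).2 s}} = ∅ := by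
        ext n
        simp only [Set.mem_setOf_eq, Set.mem_empty_iff_false, iff_false, not_not]
        have e1 : (ptS (lX fun _ _ => false) n 0).2 = fun _ => false := by rw [ptX_zero]
        have e2 : (ptS (lX fun _ _ => false) n 1).2 = fun _ => false := by
          have := ptX_nat (fun _ _ => false) n 1
          rw [Nat.cast_one] at this
          rw [this]
        rw [e1, e2]
      rw [h3, hem] at h2
      exact (measureReal_eq_zero_iff (measure_ne_top _ _)).1 h2
    have h6 : ∀ᵐ ξ ∂P, ∀ s : ℕ, ¬ (ξ 0).2 s ≠ (ξ 1).2 s := by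
      rw [ae_all_iff]
      intro s
      exact measure_eq_zero_iff_ae_notMem.1 (key s)
    filter_upwards [h6] with ξ hξ
    funext s
    exact not_not.1 (hξ s)
  · intro K _
    exact measureReal_nonneg
  · intro r
    obtain ⟨_, _, hc, hf⟩ := hB u c J (2 ^ r) (2 ^ r) hu (by positivity) (by positivity)
    have hf' : (Set.range fun ξ : Xi => DG u c J (2 ^ r) (2 ^ r) (wX ξ)).Finite :=
      hf.subset (by rintro _ ⟨ξ, rfl⟩; exact ⟨wX ξ, rfl⟩)
    have e := hX U x y (fun _ _ => false) P hA hP hclo _ hc hf'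
    unfold DX
    rw [← e]
    refine le_trans (hbig r) (le_of_eq ?_)
    simp only [wX_pt]

end Pool.Agent.H70.GNG
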